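import Pool.Agent.H13.TFQ.M72

/-!
# Rational injectivity of the assembly map in positive characteristic: the `K₀`-part and the `K₁`-part

For every ring `R` all of whose finite subsets lie in a subring which is finite or has a surjection with nilpotent
kernel onto a finite product of finite-dimensional algebras over fields of positive characteristic, and for every group
`G` satisfying `LocGrp p G {n - 1, n}` for the prime divisors `p` of the characteristic of `R`, the assembly map in the
degree `n + 1` is injective after tensoring with `ℚ` on the sum of the `K₀`-part and the `K₁`-part of its source.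
-/

set_option autoImplicit false

universe u v

namespace Pool.Agent.Results.MP_6374fb_al.CharPAllDegrees

open Pool.Agent.H71.FQS (KQ HnK0 IsAssembly RatInj LocRing)
open Pool.Agent.H71.FQ1 (HnK1 IsAssembly1 LocGrp)

theorem result (R : Type u) [Ring R] (hR : LocRing R) (G : Type v) [Group G] (n : ℕ)
    (hG : ∀ p : ℕ, p.Prime → p ∣ ringChar R → LocGrp p G {n - 1, n}) :
    ∃ (α₀ : HnK0 R G n →+ KQ (MonoidAlgebra R G) n)
      (α₁ : HnK1 R G n →+ KQ (MonoidAlgebra R G) n),
      IsAssembly α₀ ∧ IsAssembly1 α₁ ∧ RatInj (α₀.coprod α₁) :=
  Pool.Agent.H71.FQ1.main hR n hG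

end Pool.Agent.Results.MP_6374fb_al.CharPAllDegrees
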