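import Pool.Agent.H71.TCZ.M78
import Pool.Agent.H71.TCZ.M84

/-!
# The assembly map in characteristic zero: the `K₀`-part and the `K₁`-part in all degrees

For every commutative domain `R` of characteristic zero with finite proper quotients `R/rR` (every field of
characteristic zero; every subring of a number field) and every group `G` satisfying `LocSep G n` the kernel of the
rationalized assembly map in the degree `n + 1` on the sum of the `K₀`-part and the `K₁`-part of its source is contained
in the `K₀`-part, and it is zero if `R` is a field.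
-/

set_option autoImplicit false

universe u v

namespace Pool.Agent.Results.MP_6374fb_al.CharZeroAllDegrees

open Pool.Agent.H71.FQS (KQ HnK0 IsAssembly)
open Pool.Agent.H71.FQ1 (HnK1 IsAssembly1)
open Pool.Agent.H71.CZS (LocSep)

theorem result (R : Type u) [CommRing R] [IsDomain R] [CharZero R]
    (hR : ∀ r : R, r ≠ 0 → Finite (R ⧸ Ideal.span {r})) (G : Type v) [Group G] (n : ℕ)
    (hG : LocSep G n) :
    ∃ (α₀ : HnK0 R G n →+ KQ (MonoidAlgebra R G) n)
      (α₁ : HnK1 R G n →+ KQ (MonoidAlgebra R G) n),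
      IsAssembly α₀ ∧ IsAssembly1 α₁ ∧
        ∀ (w₀ : HnK0 R G n) (w₁ : HnK1 R G n), IsOfFinAddOrder (α₀ w₀ + α₁ w₁) →
          IsOfFinAddOrder w₁ ∧ (IsField R → IsOfFinAddOrder w₀) :=
  Pool.Agent.H71.CZS.main_ofK R hR G n
    (fun m h w0 w1 M hM => Pool.Agent.H39.CZ.main_R (Pool.Agent.H71.DO.hArt_fn R hR)
      (Pool.Agent.H71.DO.hUnit_fn R hR) m h w0 w1 M hM)
    (fun _ _ _ _ _ _ _ hM h => Pool.Agent.H16.CZ.k0_tor _ _ _ hM h) hG

end Pool.Agent.Results.MP_6374fb_al.CharZeroAllDegrees
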