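import Pool.Agent.H94.FJ.M24

/-!
# MP_6374fb_al: rational injectivity of the assembly map in degree one

`K1 A` is `K₁(A) = GL(A)ᵃᵇ`, `Wh R G` is the quotient of `K₁(R[G])` by the classes of `-1` and of the
elements of `G`, and `assembly R G FinSub` is the natural map from the colimit of the groups
`Wh(R; F)`, `F` a finite subgroup of `G` (with the homomorphisms induced by inclusions and by
conjugations by elements of `G`) to `Wh(R; G)`.
-/

set_option autoImplicit false

universe u v

namespace Pool.Agent.Results.MP_6374fb_al.DegreeOne

open Pool.Agent.H71.DO Pool.Agent.H95.WH

/-- Let `R` be a commutative domain such that `R/rR` is finite for every `r ≠ 0`: for instance a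
field of any characteristic, or a ring of `S`-integers of a number field or of a function field in
one variable over a finite field. Then for every group `G` the map `colim_F Wh(R; F) → Wh(R; G)`,
`F` running through the finite subgroups of `G`, becomes injective after tensoring with `ℚ`. -/
theorem result (R : Type u) [CommRing R] [IsDomain R]
    (hR : ∀ r : R, r ≠ 0 → Finite (R ⧸ Ideal.span {r})) (G : Type v) [Group G] :
    Function.Injective
      (LinearMap.lTensor ℚ (Pool.Agent.H71.DO.assembly R G FinSub).toIntLinearMap) :=
  injective_fn R hR G

end Pool.Agent.Results.MP_6374fb_al.DegreeOne
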