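import Pool.Agent.H13.TFQ.M115

/-!
# Rational injectivity of the assembly map over `ℤ` on the `K₀`-, `K₁`- and `K₋₁`-parts in all degrees

For every group `G` satisfying the condition `LocGrpZ G n` the assembly map in the degree `n ≥ 0` for the coefficient ring
`ℤ` is injective after tensoring with `ℚ` on the sum of `H_n(G; ℤ)`, the `K₁`-part and the `K₋₁`-part of its source.
The target `LQ (ℤ[G]) n` is the cokernel of `KQ (ℤ[G][t]) n ⊕ KQ (ℤ[G][t⁻¹]) n → KQ (ℤ[G][t, t⁻¹]) n`.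
-/

set_option autoImplicit false

universe u

namespace Pool.Agent.Results.MP_6374fb_al.IntegralUpToOne

open Pool.Agent.H71.FQS (RatInj)
open Pool.Agent.H71.FQ3

theorem result (G : Type u) [Group G] (n : ℕ) (hG : LocGrpZ G n) :
    ∃ (α : Hn G n →+ LQ (MonoidAlgebra ℤ G) n) (β : K1Part ℤ G n →+ LQ (MonoidAlgebra ℤ G) n)
      (γ : HnKm1 ℤ G n →+ LQ (MonoidAlgebra ℤ G) n),
      IsAssemblyH α ∧ IsAssemblyU β ∧ IsAssemblyE γ ∧ RatInj (α.coprod (β.coprod γ)) :=
  Pool.Agent.H71.FQ3.main G n hG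

end Pool.Agent.Results.MP_6374fb_al.IntegralUpToOne
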